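import Mathlib

/-!
# Project QB (helper833): homomorphisms of a quadratic field and of its completions
-/

set_option autoImplicit false

namespace Pool.Agent.N833.QB

open IsDedekindDomain NumberField

/-! ### Extension of a homomorphism to the completion -/

section ext

variable {F : Type} [Field F] [NumberField F] {p : ℕ} [hp : Fact p.Prime]
  (v : HeightOneSpectrum (𝓞 F)) (f : F →+* ℚ_[p])
  (hint : ∀ x : 𝓞 F, ‖f (algebraMap (𝓞 F) F x)‖ ≤ 1)
  (hv : ∀ x : 𝓞 F, x ∈ v.asIdeal ↔ ‖f (algebraMap (𝓞 F) F x)‖ < 1)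

include hint hv in
lemma norm_le_one_of_val {x : F} (hx : v.valuation F x ≤ 1) : ‖f x‖ ≤ 1 := by
  obtain ⟨n, d, h⟩ := v.exists_primeCompl_mul_eq_of_integer x hx
  have hd : ‖f (algebraMap (𝓞 F) F d)‖ = 1 := by
    refine le_antisymm (hint _) ?_
    have : (d : 𝓞 F) ∉ v.asIdeal := d.2
    rw [hv, not_lt] at this
    exact this
  have h1 := congrArg (fun z => ‖f z‖) h
  simp only [map_mul, norm_mul] at h1
  rw [hd, mul_one] at h1
  rw [h1]
  exact hint n

include hint hv in
lemma exists_val_lt (ε : ℝ) (hε : 0 < ε) : ∃ π : F, π ≠ 0 ∧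
    ∀ x : F, v.valuation F x < v.valuation F π → ‖f x‖ < ε := by
  obtain ⟨a, ha, ha0⟩ := (Submodule.ne_bot_iff _).1 v.ne_bot
  rw [hv] at ha
  obtain ⟨n, hn⟩ := exists_pow_lt_of_lt_one hε ha
  have ha1 : algebraMap (𝓞 F) F a ≠ 0 := by
    intro h
    exact ha0 ((FaithfulSMul.algebraMap_injective (𝓞 F) F) (by rw [h, map_zero]))
  refine ⟨(algebraMap (𝓞 F) F a) ^ n, pow_ne_zero _ ha1, fun x hx => ?_⟩
  have h1 : ‖f (x / (algebraMap (𝓞 F) F a) ^ n)‖ ≤ 1 := by
    apply norm_le_one_of_val v f hint hv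
    rw [map_div₀]
    exact (div_le_one₀ (zero_lt_iff.2 ((Valuation.ne_zero_iff _).2 (pow_ne_zero _ ha1)))).2 hx.le
  rw [map_div₀, norm_div, map_pow, norm_pow, div_le_one] at h1
  · exact h1.trans_lt hn
  · have : 0 < ‖f (algebraMap (𝓞 F) F a)‖ := norm_pos_iff.2 ((map_ne_zero f).2 ha1)
    positivity

/-- the map on `F` with the topology of the valuation -/
noncomputable def jl : WithVal (v.valuation F) →+* ℚ_[p] :=
  f.comp (WithVal.equiv (v.valuation F)).toRingHom

include hint hv in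
lemma jl_cont : Continuous (jl v f) := by
  apply continuous_of_continuousAt_zero
  unfold ContinuousAt
  rw [map_zero, Metric.tendsto_nhds]
  intro ε hε
  obtain ⟨π, hπ0, hπ⟩ := exists_val_lt v f hint hv ε hε
  rw [Filter.Eventually, Valued.mem_nhds_zero]
  have hv : (Valued.v : Valuation (WithVal (v.valuation F)) _).restrict
      ((WithVal.equiv (v.valuation F)).symm π) ≠ 0 := by
    rw [Ne, Valuation.restrict_eq_zero_iff]
    exact (Valuation.ne_zero_iff _).2 ((map_ne_zero_iff _ (RingEquiv.injective _)).2 hπ0)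
  refine ⟨Units.mk0 _ hv, fun x hx => ?_⟩
  have hx' : (Valued.v : Valuation (WithVal (v.valuation F)) _).restrict x <
    (Valued.v : Valuation (WithVal (v.valuation F)) _).restrict
      ((WithVal.equiv (v.valuation F)).symm π) := hx
  rw [Valuation.restrict_lt_iff] at hx'
  change dist (jl v f x) 0 < ε
  rw [dist_zero_right]
  exact hπ _ hx'

include hint hv in
theorem exists_ext : ∃ j : v.adicCompletion F →+* ℚ_[p],
    ∀ x : F, j (algebraMap F (v.adicCompletion F) x) = f x := by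
  have hc := jl_cont v f hint hv
  refine ⟨(UniformSpace.Completion.extensionHom (jl v f) hc).comp
    (HeightOneSpectrum.adicCompletion.equiv F v).toRingHom, fun x => ?_⟩
  exact UniformSpace.Completion.extensionHom_coe (jl v f) hc (WithVal.toVal _ x)

end ext

/-! ### Homomorphisms of a quadratic field -/

section quad

variable {K : Type} [Field K] [NumberField K] {r : K} {d : ℕ}

lemma not_sq (hd : Squarefree d) (h1 : 1 < d) (q : ℚ) : q ^ 2 ≠ (d : ℚ) := by
  intro h
  have h2 : IsSquare (d : ℚ) := ⟨q, by rw [← h, sq]⟩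
  rw [Rat.isSquare_natCast_iff] at h2
  obtain ⟨k, hk⟩ := h2
  have h3 := hd k ⟨1, by rw [hk, mul_one]⟩
  rw [Nat.isUnit_iff] at h3
  rw [h3] at hk
  omega

lemma uniq (hd : Squarefree d) (h1 : 1 < d) (hr : r ^ 2 = (d : K)) {a b a' b' : ℚ}
    (h : (a : K) + b * r = a' + b' * r) : a = a' ∧ b = b' := by
  have hb : b = b' := by
    by_contra hne
    have hne' : b - b' ≠ 0 := sub_ne_zero.2 hne
    apply not_sq hd h1 ((a' - a) / (b - b'))
    have h2 : ((b - b' : ℚ) : K) ≠ 0 := by exact_mod_cast hne'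
    have h3 : r = (((a' - a) / (b - b') : ℚ) : K) := by
      rw [Rat.cast_div, eq_div_iff h2]
      push_cast
      linear_combination h
    rw [h3] at hr
    exact_mod_cast hr
  refine ⟨?_, hb⟩
  rw [hb] at h
  have h2 : (a : K) = a' := by linear_combination h
  exact_mod_cast h2

/-- a root of `X² = d` defines a homomorphism -/
theorem exists_hom (hd : Squarefree d) (h1 : 1 < d) (hr : r ^ 2 = (d : K))
    (hK : ∀ x : K, ∃ a b : ℚ, x = (a : K) + (b : K) * r) {L : Type} [Field L] [CharZero L] (s : L)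
    (hs : s ^ 2 = (d : L)) : ∃ f : K →+* L, f r = s := by
  choose A B hAB using hK
  have key : ∀ a b : ℚ, A ((a : K) + b * r) = a ∧ B ((a : K) + b * r) = b := by
    intro a b
    have := uniq hd h1 hr (hAB ((a : K) + b * r))
    exact ⟨this.1.symm, this.2.symm⟩
  let f : K →+* L :=
    { toFun := fun x => (A x : L) + B x * s
      map_one' := by
        have := key 1 0
        have e : ((1 : ℚ) : K) + ((0 : ℚ) : K) * r = 1 := by push_cast; ring
        rw [e] at this
        rw [this.1, this.2]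
        push_cast; ring
      map_zero' := by
        have := key 0 0
        have e : ((0 : ℚ) : K) + ((0 : ℚ) : K) * r = 0 := by push_cast; ring
        rw [e] at this
        rw [this.1, this.2]
        push_cast; ring
      map_mul' := by
        intro x y
        have := key (A x * A y + d * (B x * B y)) (A x * B y + B x * A y)
        have e : ((A x * A y + d * (B x * B y) : ℚ) : K) + ((A x * B y + B x * A y : ℚ) : K) * r =
            x * y := by
          conv_rhs => rw [hAB x, hAB y]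
          push_cast
          linear_combination (-((B x : K) * B y)) * hr
        rw [e] at this
        rw [this.1, this.2]
        push_cast
        linear_combination (-((B x : L) * B y)) * hs
      map_add' := by
        intro x y
        have := key (A x + A y) (B x + B y)
        have e : ((A x + A y : ℚ) : K) + ((B x + B y : ℚ) : K) * r = x + y := by
          conv_rhs => rw [hAB x, hAB y]
          push_cast
          ring
        rw [e] at this
        rw [this.1, this.2]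
        push_cast
        ring }
  refine ⟨f, ?_⟩
  have := key 0 1
  have e : ((0 : ℚ) : K) + ((1 : ℚ) : K) * r = r := by push_cast; ring
  rw [e] at this
  show (A r : L) + B r * s = s
  rw [this.1, this.2]
  push_cast; ring

/-- an integral rational number -/
lemma int_of {q : ℚ} (h : IsIntegral ℤ (q : K)) : ∃ z : ℤ, q = z := by
  have h1 : IsIntegral ℤ q := by
    have e : (q : K) = algebraMap ℚ K q := (eq_ratCast _ q).symm
    rw [e] at h
    exact (isIntegral_algebraMap_iff (algebraMap ℚ K).injective).1 h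
  obtain ⟨z, hz⟩ := IsIntegrallyClosed.isIntegral_iff.1 h1
  exact ⟨z, hz.symm⟩

/-- a rational number `u` such that `u² d` is an integer -/
lemma int_of_sq (hd : Squarefree d) {u : ℚ} {m : ℤ} (h : u ^ 2 * d = m) : ∃ z : ℤ, u = z := by
  have hden : (u.den : ℚ) ≠ 0 := by exact_mod_cast u.den_nz
  have h2 : (u.num : ℚ) ^ 2 * d = m * (u.den : ℚ) ^ 2 := by
    have e : (u : ℚ) = u.num / u.den := (Rat.num_div_den u).symm
    rw [e] at h
    field_simp at h
    linarith
  have h3 : u.num ^ 2 * d = m * (u.den : ℤ) ^ 2 := by exact_mod_cast h2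
  have h4 : ((u.den : ℤ)) ^ 2 ∣ u.num ^ 2 * d := ⟨m, by rw [h3]; ring⟩
  have h5 : IsCoprime ((u.den : ℤ) ^ 2) (u.num ^ 2) := by
    apply IsCoprime.pow
    rw [Int.isCoprime_iff_gcd_eq_one]
    have := u.reduced
    rw [Nat.coprime_comm] at this
    simpa [Int.gcd] using this
  have h6 : ((u.den : ℤ)) ^ 2 ∣ d := h5.dvd_of_dvd_mul_left h4
  have h7 : u.den ^ 2 ∣ d := by exact_mod_cast h6
  have h8 := hd u.den (by rw [← sq]; exact h7)
  rw [Nat.isUnit_iff] at h8
  refine ⟨u.num, ?_⟩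
  have e : (u : ℚ) = u.num / u.den := (Rat.num_div_den u).symm
  rw [h8] at e
  rw [e]
  simp

/-- integral elements of a quadratic field -/
theorem two_mul_int (hd : Squarefree d) (h1 : 1 < d) (hr : r ^ 2 = (d : K))
    (hK : ∀ x : K, ∃ a b : ℚ, x = (a : K) + (b : K) * r) (x : 𝓞 K) :
    ∃ A B : ℤ, 2 * (x : K) = A + B * r := by
  obtain ⟨σ, hσ⟩ := exists_hom hd h1 hr hK (L := K) (-r) (by rw [neg_sq, hr])
  obtain ⟨a, b, hab⟩ := hK x
  have hx : IsIntegral ℤ (x : K) := RingOfIntegers.isIntegral_coe x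
  have hσx : IsIntegral ℤ (σ x) := hx.map σ.toIntAlgHom
  have e1 : σ x = (a : K) - b * r := by
    rw [hab, map_add, map_mul, hσ, map_ratCast, map_ratCast]
    ring
  have i1 : IsIntegral ℤ ((2 * a : ℚ) : K) := by
    have : ((2 * a : ℚ) : K) = x + σ x := by
      rw [e1]
      conv_rhs => rw [hab]
      push_cast; ring
    rw [this]
    exact hx.add hσx
  have i2 : IsIntegral ℤ (((2 * b) ^ 2 * d : ℚ) : K) := by
    have : (((2 * b) ^ 2 * d : ℚ) : K) = (x - σ x) ^ 2 := by
      rw [e1]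
      conv_rhs => rw [hab]
      push_cast
      linear_combination (-(4 * (b : K) ^ 2)) * hr
    rw [this]
    exact (hx.sub hσx).pow 2
  obtain ⟨A, hA⟩ := int_of i1
  obtain ⟨m, hm⟩ := int_of i2
  obtain ⟨B, hB⟩ := int_of_sq hd hm
  refine ⟨A, B, ?_⟩
  rw [hab]
  have hA' : ((2 * a : ℚ) : K) = A := by rw [hA]; norm_cast
  have hB' : ((2 * b : ℚ) : K) = B := by rw [hB]; norm_cast
  push_cast at hA' hB'
  linear_combination hA' + r * hB'

end quad

/-! ### The split primes -/

section split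

variable {K : Type} [Field K] [NumberField K] {r : K} {d : ℕ} {p : ℕ} [hp : Fact p.Prime]

lemma norm_int_p (f : K →+* ℚ_[p]) (x : 𝓞 K) : ‖f (algebraMap (𝓞 K) K x)‖ ≤ 1 := by
  have h1 : IsIntegral ℤ (f (algebraMap (𝓞 K) K x)) :=
    (RingOfIntegers.isIntegral x).map ((f.comp (algebraMap (𝓞 K) K)).toIntAlgHom)
  by_contra hc
  rw [not_le] at hc
  have h2 : IsIntegral ℤ_[p] (f (algebraMap (𝓞 K) K x)) := h1.tower_top
  obtain ⟨y, hy⟩ := IsIntegrallyClosed.isIntegral_iff.1 h2
  rw [← hy] at hc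
  have : ‖(y : ℚ_[p])‖ ≤ 1 := y.2
  exact absurd hc (not_lt.2 this)

/-- the completion at a place of a quadratic field over a split odd prime -/
theorem split_hom (hp2 : p ≠ 2) (hd : Squarefree d) (h1 : 1 < d) (hr : r ^ 2 = (d : K))
    (hK : ∀ x : K, ∃ a b : ℚ, x = (a : K) + (b : K) * r) (w : HeightOneSpectrum (𝓞 K))
    (hw : ((p : ℕ) : 𝓞 K) ∈ w.asIdeal) (s : ℚ_[p]) (hs : s ^ 2 = (d : ℚ_[p])) (s0 : ℤ)
    (hs0 : ‖s - s0‖ < 1) (R : 𝓞 K) (hR : (R : K) = r) (hRw : R - (s0 : 𝓞 K) ∈ w.asIdeal) :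
    Nonempty (w.adicCompletion K →+* ℚ_[p]) := by
  obtain ⟨f, hf⟩ := exists_hom hd h1 hr hK s hs
  have hint := norm_int_p f
  have n2 : ‖(2 : ℚ_[p])‖ = 1 := by
    have h3 : ¬ (p : ℤ) ∣ 2 := by
      intro h
      have : p ∣ 2 := by exact_mod_cast h
      exact hp2 ((Nat.prime_dvd_prime_iff_eq hp.out Nat.prime_two).1 this)
    have h4 := Padic.norm_intCast_lt_one_iff (p := p) (k := 2)
    have h5 := Padic.norm_int_le_one (p := p) 2
    have h6 : ¬ ‖((2 : ℤ) : ℚ_[p])‖ < 1 := fun h => h3 (h4.1 h)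
    have h7 : ‖((2 : ℤ) : ℚ_[p])‖ = 1 := le_antisymm h5 (not_lt.1 h6)
    simpa using h7
  -- integers in `w`
  have hZ : ∀ z : ℤ, (z : 𝓞 K) ∈ w.asIdeal → (p : ℤ) ∣ z := by
    intro z hz
    by_contra hno
    have hc : IsCoprime (p : ℤ) z :=
      ((Nat.prime_iff_prime_int.1 hp.out).coprime_iff_not_dvd).2 hno
    obtain ⟨α, β, hαβ⟩ := hc
    apply w.isPrime.ne_top
    rw [Ideal.eq_top_iff_one]
    have : (1 : 𝓞 K) = (α : 𝓞 K) * ((p : ℕ) : 𝓞 K) + (β : 𝓞 K) * (z : 𝓞 K) := by
      have := congrArg (Int.cast : ℤ → 𝓞 K) hαβ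
      push_cast at this
      rw [← this]
    rw [this]
    exact w.asIdeal.add_mem (w.asIdeal.mul_mem_left _ hw) (w.asIdeal.mul_mem_left _ hz)
  have hsub : ∀ x : 𝓞 K, x ∈ w.asIdeal → ‖f (algebraMap (𝓞 K) K x)‖ < 1 := by
    intro x hx
    obtain ⟨A, B, hAB⟩ := two_mul_int hd h1 hr hK x
    have e1 : (2 : 𝓞 K) * x = ((A + B * s0 : ℤ) : 𝓞 K) + (B : 𝓞 K) * (R - (s0 : 𝓞 K)) := by
      apply RingOfIntegers.ext
      simp only [map_add, map_mul, map_sub, map_intCast, map_ofNat]
      rw [hAB]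
      have hR' : algebraMap (𝓞 K) K R = r := hR
      rw [hR']
      push_cast
      ring
    have h3 : ((A + B * s0 : ℤ) : 𝓞 K) ∈ w.asIdeal := by
      have : ((A + B * s0 : ℤ) : 𝓞 K) = 2 * x - (B : 𝓞 K) * (R - (s0 : 𝓞 K)) := by
        rw [e1]; ring
      rw [this]
      exact w.asIdeal.sub_mem (w.asIdeal.mul_mem_left _ hx) (w.asIdeal.mul_mem_left _ hRw)
    have h4 := hZ _ h3
    have h5 : ‖((A + B * s0 : ℤ) : ℚ_[p])‖ < 1 := Padic.norm_intCast_lt_one_iff.2 h4
    have e2 : (2 : ℚ_[p]) * f (algebraMap (𝓞 K) K x) =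
        ((A + B * s0 : ℤ) : ℚ_[p]) + (B : ℚ_[p]) * (s - s0) := by
      have e3 : f (2 * (x : K)) = f ((A : K) + B * r) := by rw [hAB]
      rw [map_mul, map_add, map_mul, hf, map_intCast, map_intCast, map_ofNat] at e3
      push_cast
      have e4 : (2 : ℚ_[p]) * f (algebraMap (𝓞 K) K x) = A + B * s := e3
      rw [e4]
      ring
    have h6 : ‖(2 : ℚ_[p]) * f (algebraMap (𝓞 K) K x)‖ < 1 := by
      rw [e2]
      refine lt_of_le_of_lt (Padic.nonarchimedean _ _) (max_lt h5 ?_)
      rw [norm_mul]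
      have := Padic.norm_int_le_one (p := p) B
      have h0 := norm_nonneg (s - (s0 : ℚ_[p]))
      nlinarith [norm_nonneg (B : ℚ_[p])]
    rwa [norm_mul, n2, one_mul] at h6
  have hiff : ∀ x : 𝓞 K, x ∈ w.asIdeal ↔ ‖f (algebraMap (𝓞 K) K x)‖ < 1 := by
    intro x
    refine ⟨hsub x, fun hx => ?_⟩
    by_contra hno
    have hmax := w.isMaximal
    obtain ⟨y, hy⟩ := hmax.exists_inv hno
    obtain ⟨i, hi, hyi⟩ := hy
    have h3 := hsub i hi
    have h4 : ‖f (algebraMap (𝓞 K) K (y * x))‖ < 1 := by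
      rw [map_mul, map_mul, norm_mul]
      have := hint y
      nlinarith [norm_nonneg (f (algebraMap (𝓞 K) K x)), norm_nonneg (f (algebraMap (𝓞 K) K y))]
    have h5 : ‖f (algebraMap (𝓞 K) K (y * x + i))‖ < 1 := by
      rw [map_add, map_add]
      exact lt_of_le_of_lt (Padic.nonarchimedean _ _) (max_lt h4 h3)
    rw [hyi, map_one, map_one, norm_one] at h5
    exact lt_irrefl _ h5
  obtain ⟨j, -⟩ := exists_ext w f hint hiff
  exact ⟨j⟩

end split

end Pool.Agent.N833.QB
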