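import Pool.Agent.N833.QB.Ext
import Pool.Agent.N856.QB.Stm
import Pool.Agent.N875.X15.Glob
import Pool.Agent.N875.X15.Sel

/-!
# Project QB (helper833): QB-N3 (the split primes dividing `n`) and QB-INF (the infinite places)
-/

set_option autoImplicit false

namespace Pool.Agent.N833.QB

open IsDedekindDomain NumberField
open Pool.Agent.N856.QB
open Pool.Agent.TH841.SH (LocC)

/-! ### Transport of the local condition -/

lemma locC_of_Lo {L L' : Type} [Field L] [Field L'] (j : L →+* L') {a b c u v : ℤ}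
    (h : Lo L a b c (u : L) (v : L)) : LocC L' a b c u v := by
  obtain ⟨x, y, hy, h1, ⟨s, hs⟩, ⟨t, ht⟩⟩ := h
  refine ⟨j x, j y, (map_ne_zero j).2 hy, ?_, ⟨j s, ?_⟩, ⟨j t, ?_⟩⟩
  · have := congrArg j h1
    simpa only [map_pow, map_mul, map_sub, map_intCast] using this
  · have := congrArg j hs
    simpa only [map_pow, map_mul, map_sub, map_intCast] using this
  · have := congrArg j ht
    simpa only [map_pow, map_mul, map_sub, map_intCast] using this

lemma Lo_of_locC {L L' : Type} [Field L] [Field L'] (j : L' →+* L) {a b c u v : ℤ}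
    (h : LocC L' a b c u v) : Lo L a b c (u : L) (v : L) := by
  obtain ⟨x, y, hy, h1, ⟨s, hs⟩, ⟨t, ht⟩⟩ := h
  refine ⟨j x, j y, (map_ne_zero j).2 hy, ?_, ⟨j s, ?_⟩, ⟨j t, ?_⟩⟩
  · have := congrArg j h1
    simpa only [map_pow, map_mul, map_sub, map_intCast] using this
  · have := congrArg j hs
    simpa only [map_pow, map_mul, map_sub, map_intCast] using this
  · have := congrArg j ht
    simpa only [map_pow, map_mul, map_sub, map_intCast] using this

/-! ### Square roots -/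

lemma exists_int {K : Type} [Field K] [NumberField K] {r : K} {d : ℕ} (hr : r ^ 2 = (d : K)) :
    ∃ R : 𝓞 K, (R : K) = r := by
  have hi : IsIntegral ℤ r := by
    refine IsIntegral.of_pow (n := 2) (by norm_num) ?_
    rw [hr]
    exact isIntegral_algebraMap (R := ℤ) (A := K) (x := (d : ℤ)) |> fun h => by simpa using h
  exact ⟨⟨r, hi⟩, rfl⟩

/-- a square root modulo `p` of a unit lifts to `ℚ_p` -/
lemma hensel_sq {p : ℕ} [hp : Fact p.Prime] (hp2 : p ≠ 2) (s0 d : ℤ) (h : (p : ℤ) ∣ s0 ^ 2 - d)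
    (hd : ¬ (p : ℤ) ∣ d) : ∃ s : ℚ_[p], s ^ 2 = (d : ℚ_[p]) ∧ ‖s - s0‖ < 1 := by
  have hpr : Prime (p : ℤ) := Nat.prime_iff_prime_int.1 hp.out
  have hs0 : ¬ (p : ℤ) ∣ 2 * s0 := by
    intro h2
    rcases hpr.dvd_or_dvd h2 with h3 | h3
    · have : p ∣ 2 := by exact_mod_cast h3
      exact hp2 ((Nat.prime_dvd_prime_iff_eq hp.out Nat.prime_two).1 this)
    · apply hd
      have : (p : ℤ) ∣ s0 ^ 2 := dvd_pow h3 two_ne_zero
      have h4 := dvd_sub this h
      simpa using h4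
  let F : Polynomial ℤ_[p] := Polynomial.X ^ 2 - Polynomial.C (d : ℤ_[p])
  have e1 : F.aeval (s0 : ℤ_[p]) = ((s0 ^ 2 - d : ℤ) : ℤ_[p]) := by
    simp [F]
  have e2 : (Polynomial.derivative F).aeval (s0 : ℤ_[p]) = ((2 * s0 : ℤ) : ℤ_[p]) := by
    simp only [F, Polynomial.derivative_sub, Polynomial.derivative_X_pow, Polynomial.derivative_C,
      sub_zero, map_mul, map_pow, Polynomial.aeval_X, Polynomial.aeval_C]
    push_cast
    norm_num
  have n1 : ‖((s0 ^ 2 - d : ℤ) : ℤ_[p])‖ < 1 := by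
    have := (Padic.norm_intCast_lt_one_iff (p := p) (k := s0 ^ 2 - d)).2 h
    rw [PadicInt.norm_def]
    push_cast at this ⊢
    exact this
  have n2 : ‖((2 * s0 : ℤ) : ℤ_[p])‖ = 1 := by
    have h1 : ¬ ‖((2 * s0 : ℤ) : ℚ_[p])‖ < 1 := fun h => hs0 (Padic.norm_intCast_lt_one_iff.1 h)
    have h2 := Padic.norm_int_le_one (p := p) (2 * s0)
    have h3 := le_antisymm h2 (not_lt.1 h1)
    rw [PadicInt.norm_def]
    push_cast at h3 ⊢
    exact h3
  obtain ⟨z, hz, hz1, -⟩ := hensels_lemma (F := F) (a := (s0 : ℤ_[p])) (by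
    rw [e1, e2, n2, one_pow]; exact n1)
  rw [e2, n2] at hz1
  refine ⟨(z : ℚ_[p]), ?_, ?_⟩
  · have h5 : z ^ 2 = (d : ℤ_[p]) := by
      have : F.aeval z = z ^ 2 - (d : ℤ_[p]) := by simp [F]
      rw [this] at hz
      exact sub_eq_zero.1 hz
    have h6 := congrArg (fun t : ℤ_[p] => (t : ℚ_[p])) h5
    push_cast at h6
    exact h6
  · rw [PadicInt.norm_def] at hz1
    push_cast at hz1
    exact hz1

/-- a split odd prime: the completions embed in `ℚ_p` -/
theorem split_emb {K : Type} [Field K] [NumberField K] {r : K} {d p : ℕ} [hp : Fact p.Prime]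
    (hp2 : p ≠ 2) (hd : Squarefree d) (h1 : 1 < d) (hr : r ^ 2 = (d : K))
    (hK : ∀ x : K, ∃ a b : ℚ, x = (a : K) + (b : K) * r) (hj : jacobiSym d p = 1)
    (w : HeightOneSpectrum (𝓞 K)) (hw : ((p : ℕ) : 𝓞 K) ∈ w.asIdeal) :
    Nonempty (w.adicCompletion K →+* ℚ_[p]) := by
  rw [← jacobiSym.legendreSym.to_jacobiSym] at hj
  have hd0 : ((d : ℤ) : ZMod p) ≠ 0 := by
    intro h0
    rw [(legendreSym.eq_zero_iff p _).2 h0] at hj
    exact zero_ne_one hj
  have hpd : ¬ (p : ℤ) ∣ (d : ℤ) := by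
    intro h
    exact hd0 ((ZMod.intCast_zmod_eq_zero_iff_dvd _ p).2 h)
  obtain ⟨t, ht⟩ := (legendreSym.eq_one_iff p hd0).1 hj
  obtain ⟨s0, rfl⟩ := ZMod.intCast_surjective t
  have hdv : (p : ℤ) ∣ s0 ^ 2 - d := by
    rw [← ZMod.intCast_zmod_eq_zero_iff_dvd]
    push_cast
    rw [sq, ← ht]
    push_cast
    ring
  obtain ⟨s, hs, hss⟩ := hensel_sq hp2 s0 d hdv hpd
  obtain ⟨R, hR⟩ := exists_int hr
  have hs' : s ^ 2 = (d : ℚ_[p]) := by rw [hs]; norm_cast
  -- the product is in the ideal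
  have hprod : (R - (s0 : 𝓞 K)) * (R + (s0 : 𝓞 K)) ∈ w.asIdeal := by
    obtain ⟨c, hc⟩ := hdv
    have e1 : R ^ 2 = (d : 𝓞 K) := by
      apply FaithfulSMul.algebraMap_injective (𝓞 K) K
      rw [map_pow, map_natCast]
      have hR' : algebraMap (𝓞 K) K R = r := hR
      rw [hR', hr]
    have e2 : (R - (s0 : 𝓞 K)) * (R + (s0 : 𝓞 K)) = (-(c : 𝓞 K)) * ((p : ℕ) : 𝓞 K) := by
      have e3 := congrArg (Int.cast : ℤ → 𝓞 K) hc
      push_cast at e3
      linear_combination e1 - e3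
    rw [e2]
    exact w.asIdeal.mul_mem_left _ hw
  rcases w.isPrime.mem_or_mem hprod with h | h
  · exact split_hom hp2 hd h1 hr hK w hw s hs' s0 hss R hR h
  · refine split_hom hp2 hd h1 hr hK w hw (-s) (by rw [neg_sq, hs']) (-s0) ?_ R hR ?_
    · have : -s - ((-s0 : ℤ) : ℚ_[p]) = -(s - s0) := by push_cast; ring
      rw [this, norm_neg]
      exact hss
    · have : R - ((-s0 : ℤ) : 𝓞 K) = R + (s0 : 𝓞 K) := by push_cast; ring
      rw [this]
      exact h

/-! ### QB-N3 -/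

theorem t_N3 : S_N3 := by
  intro n d hy K _ _ r hq p hp hpn hj w hw a b ha hb hlo
  have hnsq := hy.hn.1
  have hn60 := hy.hn.2
  have hp2 : p ≠ 2 := by
    intro h
    subst h
    omega
  obtain ⟨j⟩ := split_emb hp2 hy.hd.1 hy.h1 hq.hr hq.hK hj w hw
  have hloc : LocC ℚ_[p] 0 (-9 * (-n : ℤ)) (16 * (-n : ℤ)) a b := locC_of_Lo j hlo
  have hsq : Squarefree (-(n : ℤ)) := by
    intro x hx
    exact (Int.squarefree_natCast.2 hnsq) x ((dvd_neg).1 hx)
  have hpm : (p : ℤ) ∣ -(n : ℤ) := (dvd_neg).2 (by exact_mod_cast hpn)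
  have h := Pool.Agent.N875.X15.loc_dvd hp2 hsq hpm hloc
  unfold At
  push_cast at h ⊢
  rcases h with ⟨h1, h2⟩ | ⟨h1, h2⟩ | ⟨h1, h2⟩ | ⟨h1, h2⟩
  · exact Or.inl ⟨h1, h2⟩
  · exact Or.inr (Or.inl ⟨h1, h2⟩)
  · refine Or.inr (Or.inr (Or.inl ⟨?_, h2⟩))
    convert h1 using 1
    ring
  · exact Or.inr (Or.inr (Or.inr ⟨h1, h2⟩))

/-! ### QB-INF -/

lemma isReal_of_quad {K : Type} [Field K] [NumberField K] {r : K} {d : ℕ}
    (hr : r ^ 2 = (d : K)) (hK : ∀ x : K, ∃ a b : ℚ, x = (a : K) + (b : K) * r)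
    (v : InfinitePlace K) : v.IsReal := by
  rw [InfinitePlace.isReal_iff, ComplexEmbedding.isReal_iff]
  have hconj : (starRingEnd ℂ) (v.embedding r) = v.embedding r := by
    have h1 : (v.embedding r) ^ 2 = (d : ℂ) := by rw [← map_pow, hr, map_natCast]
    have h2 : ((Real.sqrt d : ℝ) : ℂ) ^ 2 = (d : ℂ) := by
      rw [← Complex.ofReal_pow, Real.sq_sqrt (Nat.cast_nonneg d)]
      norm_cast
    have h3 : (v.embedding r) ^ 2 = ((Real.sqrt d : ℝ) : ℂ) ^ 2 := by rw [h1, h2]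
    rcases sq_eq_sq_iff_eq_or_eq_neg.1 h3 with h | h
    · rw [h, Complex.conj_ofReal]
    · rw [h, map_neg, Complex.conj_ofReal]
  ext x
  obtain ⟨a, b, rfl⟩ := hK x
  rw [ComplexEmbedding.conjugate_coe_eq]
  simp only [map_add, map_mul, map_ratCast, hconj]

lemma isSquare_of_nonneg {x : ℝ} (hx : 0 ≤ x) : IsSquare x := ⟨Real.sqrt x, (Real.mul_self_sqrt hx).symm⟩

lemma locC_real {n : ℤ} (hn : 0 < n) {a b : ℤ} (hab : 0 < a * b) :
    LocC ℝ 0 (-9 * (-n)) (16 * (-n)) a b := by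
  have hn' : (0 : ℝ) < n := by exact_mod_cast hn
  rcases pos_and_pos_or_neg_and_neg_of_mul_pos hab with ⟨ha, hb⟩ | ⟨ha, hb⟩
  · have ha' : (0 : ℝ) < a := by exact_mod_cast ha
    have hb' : (0 : ℝ) < b := by exact_mod_cast hb
    have h3 : (0 : ℝ) < 260 * n ^ 3 := by positivity
    refine ⟨10 * n, Real.sqrt (260 * n ^ 3), (Real.sqrt_pos.2 h3).ne', ?_, ?_, ?_⟩
    · rw [Real.sq_sqrt h3.le]; push_cast; ring
    · apply isSquare_of_nonneg
      push_cast
      have : (0 : ℝ) < n * a := by positivity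
      nlinarith
    · apply isSquare_of_nonneg
      push_cast
      have : (0 : ℝ) < n * b := by positivity
      nlinarith
  · have ha' : (0 : ℝ) < -a := by
      have : (a : ℝ) < 0 := by exact_mod_cast ha
      linarith
    have hb' : (0 : ℝ) < -b := by
      have : (b : ℝ) < 0 := by exact_mod_cast hb
      linarith
    have h3 : (0 : ℝ) < 150 * n ^ 3 := by positivity
    refine ⟨-n, Real.sqrt (150 * n ^ 3), (Real.sqrt_pos.2 h3).ne', ?_, ?_, ?_⟩
    · rw [Real.sq_sqrt h3.le]; push_cast; ring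
    · apply isSquare_of_nonneg
      push_cast
      have : (0 : ℝ) < n * (-a) := by positivity
      nlinarith
    · apply isSquare_of_nonneg
      push_cast
      have : (0 : ℝ) < n * (-b) := by positivity
      nlinarith

theorem t_INF : S_INF := by
  intro n d hy K _ _ r hq v a b ha hb
  have hn60 := hy.hn.2
  have hn : (0 : ℤ) < n := by
    have : 0 < n := by omega
    exact_mod_cast this
  have hv := isReal_of_quad hq.hr hq.hK v
  constructor
  · intro h
    have h1 : LocC ℝ 0 (-9 * (-n : ℤ)) (16 * (-n : ℤ)) a b :=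
      locC_of_Lo (InfinitePlace.Completion.extensionEmbeddingOfIsReal hv) h
    rcases Pool.Agent.N875.X15.loc_sign (m := -(n : ℤ)) (by linarith) ha hb h1 with ⟨h2, h3⟩ | ⟨h2, h3⟩
    · exact mul_pos h2 h3
    · exact mul_pos_of_neg_of_neg h2 h3
  · intro h
    exact Lo_of_locC (InfinitePlace.Completion.ringEquivRealOfIsReal hv).symm.toRingHom
      (locC_real hn h)

end Pool.Agent.N833.QB
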